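import Pool.Agent.W709.VC.Defs

/-!
# VC-MAX: concavity of the potential
-/

set_option autoImplicit false

namespace Pool.Agent.W402.VC

open Filter Set GapVol Pool.Agent.W709.VC
open scoped Real Topology

lemma one_lt_cosh {η : ℝ} (hη : 0 < η) : 1 < Real.cosh η := Real.one_lt_cosh.mpr hη.ne'

lemma den_pos {η : ℝ} (hη : 0 < η) (τ : ℝ) : 0 < Real.cosh η + Real.cos τ := by
  have := one_lt_cosh hη
  have := Real.neg_one_le_cos τ
  linarith

lemma arg_pos {η : ℝ} (hη : 0 < η) (τ : ℝ) : 0 < 2 * Real.cosh η + 2 * Real.cos τ := by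
  have := den_pos hη τ
  linarith

lemma ell_hasDeriv {η : ℝ} (hη : 0 < η) (τ : ℝ) :
    HasDerivAt (ell η) (-(Real.sin τ / (Real.cosh η + Real.cos τ))) τ := by
  have hd := den_pos hη τ
  have h1 : HasDerivAt (fun τ => 2 * Real.cosh η + 2 * Real.cos τ) (2 * (-Real.sin τ)) τ :=
    ((Real.hasDerivAt_cos τ).const_mul 2).const_add _
  have h2 := h1.log (arg_pos hη τ).ne'
  have h3 : (2 * (-Real.sin τ)) / (2 * Real.cosh η + 2 * Real.cos τ) =
      -(Real.sin τ / (Real.cosh η + Real.cos τ)) := by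
    rw [← mul_add, mul_div_mul_left _ _ (two_ne_zero), neg_div]
  rw [h3] at h2
  exact h2

lemma ell_cont {η : ℝ} (hη : 0 < η) : Continuous (ell η) :=
  continuous_iff_continuousAt.mpr fun τ => (ell_hasDeriv hη τ).continuousAt

lemma Lf_hasDeriv {η : ℝ} (hη : 0 < η) (x : ℝ) : HasDerivAt (Lf η) (ell η x) x :=
  ((ell_cont hη).integral_hasStrictDerivAt 0 x).hasDerivAt

lemma Lf_cont {η : ℝ} (hη : 0 < η) : Continuous (Lf η) :=
  continuous_iff_continuousAt.mpr fun τ => (Lf_hasDeriv hη τ).continuousAt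

lemma g_meas : Measurable g := by
  unfold g
  exact (Real.measurable_log.comp (measurable_const.mul Real.measurable_sin)).neg

lemma lob_hasDeriv {x : ℝ} (h0 : 0 < x) (h1 : x < π) :
    HasDerivAt lob (-Real.log (2 * Real.sin x)) x := by
  have hs := Real.sin_pos_of_pos_of_lt_pi h0 h1
  have e : lob = fun x => ∫ t in (0:ℝ)..x, g t := funext lob_eq
  rw [e]
  have hc : ContinuousAt g x := by
    unfold g
    exact ((continuousAt_const.mul Real.continuous_sin.continuousAt).log
      (mul_pos two_pos hs).ne').neg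
  exact intervalIntegral.integral_hasDerivAt_right (g_int _ _)
    g_meas.stronglyMeasurable.stronglyMeasurableAtFilter hc

lemma ell_comp {η : ℝ} (hη : 0 < η) {u : ℝ → ℝ} {u' t : ℝ} (hu : HasDerivAt u u' t) :
    HasDerivAt (fun t => ell η (u t))
      (-(Real.sin (u t) / (Real.cosh η + Real.cos (u t))) * u') t :=
  HasDerivAt.comp (h₂ := ell η) (h := u) t (ell_hasDeriv hη (u t)) hu

lemma Lf_comp {η : ℝ} (hη : 0 < η) {u : ℝ → ℝ} {u' t : ℝ} (hu : HasDerivAt u u' t) :
    HasDerivAt (fun t => Lf η (u t)) (ell η (u t) * u') t :=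
  HasDerivAt.comp (h₂ := Lf η) (h := u) t (Lf_hasDeriv hη (u t)) hu

lemma lob_comp {u : ℝ → ℝ} {u' t : ℝ} (h0 : 0 < u t) (h1 : u t < π) (hu : HasDerivAt u u' t) :
    HasDerivAt (fun t => lob (u t)) (-Real.log (2 * Real.sin (u t)) * u') t :=
  HasDerivAt.comp (h₂ := lob) (h := u) t (lob_hasDeriv h0 h1) hu

lemma form_nonneg {q p r : ℝ} (x y : ℝ) (hq : 0 ≤ q) (hpr : 0 ≤ p + r)
    (hd : 0 ≤ q * (p + r) + 4 * (p * r)) :
    0 ≤ q * x ^ 2 + p * (x + y) ^ 2 + r * (x - y) ^ 2 := by
  rcases hpr.eq_or_lt with h | h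
  · have hr : r = -p := by linarith
    subst hr
    have hp : p = 0 := by
      have : p ^ 2 ≤ 0 := by nlinarith
      exact pow_eq_zero_iff (two_ne_zero) |>.mp (le_antisymm this (sq_nonneg p))
    subst hp
    have := mul_nonneg hq (sq_nonneg x)
    simpa using this
  · have e : (p + r) * (q * x ^ 2 + p * (x + y) ^ 2 + r * (x - y) ^ 2) =
        ((p + r) * y + (p - r) * x) ^ 2 + (q * (p + r) + 4 * (p * r)) * x ^ 2 := by ring
    have h2 : 0 ≤ (p + r) * (q * x ^ 2 + p * (x + y) ^ 2 + r * (x - y) ^ 2) := by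
      rw [e]
      have := mul_nonneg hd (sq_nonneg x)
      positivity
    exact nonneg_of_mul_nonneg_right h2 h

lemma pr_add {η α b : ℝ} (hη : 0 < η) :
    Real.sin (b + α) / (Real.cosh η + Real.cos (b + α)) +
      -(Real.sin (b - α) / (Real.cosh η + Real.cos (b - α))) =
    2 * Real.sin α * (Real.cosh η * Real.cos b + Real.cos α) /
      ((Real.cosh η + Real.cos (b + α)) * (Real.cosh η + Real.cos (b - α))) := by
  have h1 := den_pos hη (b + α)
  have h2 := den_pos hη (b - α)
  rw [← sub_eq_add_neg, div_sub_div _ _ h1.ne' h2.ne']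
  congr 1
  rw [Real.sin_add, Real.sin_sub, Real.cos_add, Real.cos_sub]
  have := Real.sin_sq_add_cos_sq b
  linear_combination (2 * Real.sin α * Real.cos α) * this

lemma pr_mul {η α b : ℝ} (hη : 0 < η) :
    Real.sin (b + α) / (Real.cosh η + Real.cos (b + α)) *
      -(Real.sin (b - α) / (Real.cosh η + Real.cos (b - α))) =
    (Real.sin α ^ 2 - Real.sin b ^ 2) /
      ((Real.cosh η + Real.cos (b + α)) * (Real.cosh η + Real.cos (b - α))) := by
  have h1 := den_pos hη (b + α)
  have h2 := den_pos hη (b - α)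
  rw [mul_neg, div_mul_div_comm, ← neg_div]
  congr 1
  rw [Real.sin_add, Real.sin_sub]
  have e1 := Real.sin_sq_add_cos_sq b
  have e2 := Real.sin_sq_add_cos_sq α
  linear_combination (Real.sin α ^ 2) * e1 - (Real.sin b ^ 2) * e2

lemma cc_nonneg {η α b : ℝ} (hα : 0 ≤ α) (hb : 0 ≤ b) (hb2 : b ≤ π / 2)
    (hαb : α + b ≤ π) : 0 ≤ Real.cosh η * Real.cos b + Real.cos α := by
  have h1 : 0 ≤ Real.cos b := Real.cos_nonneg_of_mem_Icc ⟨by linarith [Real.pi_pos], hb2⟩
  have h2 : Real.cos (π - b) ≤ Real.cos α :=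
    Real.cos_le_cos_of_nonneg_of_le_pi hα (by linarith) (by linarith)
  rw [Real.cos_pi_sub] at h2
  have h3 := Real.one_le_cosh η
  nlinarith

lemma quad_nonneg {η α b : ℝ} (x y : ℝ) (hη : 0 < η) (hα : 0 < α) (hb : 0 ≤ b) (hb2 : b ≤ π / 2)
    (hαb : α + b ≤ π) :
    0 ≤ 2 * (Real.cos (α / 2) / Real.sin (α / 2)) * x ^ 2 +
      Real.sin (b + α) / (Real.cosh η + Real.cos (b + α)) * (x + y) ^ 2 +
      -(Real.sin (b - α) / (Real.cosh η + Real.cos (b - α))) * (x - y) ^ 2 := by
  have hpi := Real.pi_pos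
  have h1 := den_pos hη (b + α)
  have h2 := den_pos hη (b - α)
  have hD : 0 < (Real.cosh η + Real.cos (b + α)) * (Real.cosh η + Real.cos (b - α)) :=
    mul_pos h1 h2
  have hs2 : 0 < Real.sin (α / 2) := Real.sin_pos_of_pos_of_lt_pi (by linarith) (by linarith)
  have hc2 : 0 ≤ Real.cos (α / 2) := Real.cos_nonneg_of_mem_Icc ⟨by linarith, by linarith⟩
  have hs : 0 ≤ Real.sin α := Real.sin_nonneg_of_nonneg_of_le_pi hα.le (by linarith)
  have hcc := cc_nonneg (η := η) hα.le hb hb2 hαb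
  have hpr := pr_add (η := η) (α := α) (b := b) hη
  have hpm := pr_mul (η := η) (α := α) (b := b) hη
  apply form_nonneg
  · positivity
  · rw [hpr]
    positivity
  · rw [hpr, hpm]
    have hq : (2 * (Real.cos (α / 2) / Real.sin (α / 2))) * Real.sin α = 2 * (1 + Real.cos α) := by
      have e1 : Real.sin α = 2 * Real.sin (α / 2) * Real.cos (α / 2) := by
        rw [← Real.sin_two_mul]; congr 1; ring
      have e2 : Real.cos α = 2 * Real.cos (α / 2) ^ 2 - 1 := by
        rw [← Real.cos_two_mul]; congr 1; ring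
      rw [e1, e2]
      field_simp
      ring
    have e : 2 * (Real.cos (α / 2) / Real.sin (α / 2)) *
        (2 * Real.sin α * (Real.cosh η * Real.cos b + Real.cos α) /
          ((Real.cosh η + Real.cos (b + α)) * (Real.cosh η + Real.cos (b - α)))) +
        4 * ((Real.sin α ^ 2 - Real.sin b ^ 2) /
          ((Real.cosh η + Real.cos (b + α)) * (Real.cosh η + Real.cos (b - α)))) =
        (2 * ((2 * (Real.cos (α / 2) / Real.sin (α / 2))) * Real.sin α) *
          (Real.cosh η * Real.cos b + Real.cos α) + 4 * (Real.sin α ^ 2 - Real.sin b ^ 2)) /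
          ((Real.cosh η + Real.cos (b + α)) * (Real.cosh η + Real.cos (b - α))) := by
      ring
    rw [e, hq]
    apply div_nonneg _ hD.le
    have h3 : Real.cos (π - b) ≤ Real.cos α :=
      Real.cos_le_cos_of_nonneg_of_le_pi hα.le (by linarith) (by linarith)
    rw [Real.cos_pi_sub] at h3
    have h4 : 0 ≤ Real.cos b := Real.cos_nonneg_of_mem_Icc ⟨by linarith, hb2⟩
    have h5 := Real.one_le_cosh η
    have h6 : Real.cos b ≤ 1 := Real.cos_le_one b
    have e1 := Real.sin_sq_add_cos_sq b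
    have e2 := Real.sin_sq_add_cos_sq α
    have k1 : 0 ≤ (1 + Real.cos α - (1 - Real.cos b)) * (1 + Real.cosh η * Real.cos b) := by
      apply mul_nonneg (by linarith)
      positivity
    have k2 : 0 ≤ (1 - Real.cos b) * (Real.cosh η * Real.cos b - Real.cos b) := by
      apply mul_nonneg (by linarith)
      nlinarith
    nlinarith

/-- the derivative of the potential along a line -/
noncomputable def dpot (m η α b x y : ℝ) : ℝ :=
  -4 * x * Real.log (2 * Real.sin (α / 2)) + (x + y) * ell η (b + α) + (x - y) * ell η (b - α) +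
    4 * m * η * y

lemma pot_hasDeriv {m η α₀ b₀ x y t : ℝ} (hη : 0 < η) (h0 : 0 < α₀ + t * x)
    (h1 : α₀ + t * x < 2 * π) :
    HasDerivAt (fun t => pot m (α₀ + t * x) (b₀ + t * y) η)
      (dpot m η (α₀ + t * x) (b₀ + t * y) x y) t := by
  have a1 : HasDerivAt (fun t => α₀ + t * x) x t := by
    simpa using ((hasDerivAt_id t).mul_const x).const_add α₀
  have b1 : HasDerivAt (fun t => b₀ + t * y) y t := by
    simpa using ((hasDerivAt_id t).mul_const y).const_add b₀
  have l1 : HasDerivAt (fun t => lob ((α₀ + t * x) / 2))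
      (-Real.log (2 * Real.sin ((α₀ + t * x) / 2)) * (x / 2)) t :=
    lob_comp (by linarith) (by linarith) (a1.div_const 2)
  have l2 : HasDerivAt (fun t => Lf η ((b₀ + t * y) + (α₀ + t * x)))
      (ell η ((b₀ + t * y) + (α₀ + t * x)) * (y + x)) t :=
    Lf_comp hη (b1.add a1)
  have l3 : HasDerivAt (fun t => Lf η ((b₀ + t * y) - (α₀ + t * x)))
      (ell η ((b₀ + t * y) - (α₀ + t * x)) * (y - x)) t :=
    Lf_comp hη (b1.sub a1)
  have l4 : HasDerivAt (fun t => 4 * (m * (b₀ + t * y) - π) * η) (4 * (m * y) * η) t :=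
    (((b1.const_mul m).sub_const π).const_mul 4).mul_const η
  have := ((l1.const_mul 8).add l4).add (l2.sub l3)
  refine this.congr_deriv ?_
  unfold dpot
  ring

lemma dpot_hasDeriv {m η α₀ b₀ x y t : ℝ} (hη : 0 < η) (h0 : 0 < α₀ + t * x)
    (h1 : α₀ + t * x < 2 * π) :
    HasDerivAt (fun t => dpot m η (α₀ + t * x) (b₀ + t * y) x y)
      (-(2 * (Real.cos ((α₀ + t * x) / 2) / Real.sin ((α₀ + t * x) / 2)) * x ^ 2 +
      Real.sin ((b₀ + t * y) + (α₀ + t * x)) /
        (Real.cosh η + Real.cos ((b₀ + t * y) + (α₀ + t * x))) * (x + y) ^ 2 +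
      -(Real.sin ((b₀ + t * y) - (α₀ + t * x)) /
        (Real.cosh η + Real.cos ((b₀ + t * y) - (α₀ + t * x)))) * (x - y) ^ 2)) t := by
  have a1 : HasDerivAt (fun t => α₀ + t * x) x t := by
    simpa using ((hasDerivAt_id t).mul_const x).const_add α₀
  have b1 : HasDerivAt (fun t => b₀ + t * y) y t := by
    simpa using ((hasDerivAt_id t).mul_const y).const_add b₀
  have hs : 0 < Real.sin ((α₀ + t * x) / 2) :=
    Real.sin_pos_of_pos_of_lt_pi (by linarith) (by linarith)
  have l1 : HasDerivAt (fun t => Real.log (2 * Real.sin ((α₀ + t * x) / 2)))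
      ((2 * (Real.cos ((α₀ + t * x) / 2) * (x / 2))) / (2 * Real.sin ((α₀ + t * x) / 2))) t :=
    (((a1.div_const 2).sin).const_mul 2).log (by positivity)
  have l2 : HasDerivAt (fun t => ell η ((b₀ + t * y) + (α₀ + t * x)))
      (-(Real.sin ((b₀ + t * y) + (α₀ + t * x)) /
        (Real.cosh η + Real.cos ((b₀ + t * y) + (α₀ + t * x)))) * (y + x)) t :=
    ell_comp hη (b1.add a1)
  have l3 : HasDerivAt (fun t => ell η ((b₀ + t * y) - (α₀ + t * x)))
      (-(Real.sin ((b₀ + t * y) - (α₀ + t * x)) /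
        (Real.cosh η + Real.cos ((b₀ + t * y) - (α₀ + t * x)))) * (y - x)) t :=
    ell_comp hη (b1.sub a1)
  have := (((l1.const_mul (-4 * x)).add (l2.const_mul (x + y))).add
    (l3.const_mul (x - y))).add_const (4 * m * η * y)
  refine this.congr_deriv ?_
  rw [mul_div_mul_left _ _ (two_ne_zero)]
  ring

lemma pot_cont (m : ℝ) {η : ℝ} (hη : 0 < η) : Continuous fun z : ℝ × ℝ => pot m z.1 z.2 η := by
  unfold pot
  have := Lf_cont hη
  have := lob_cont
  fun_prop

theorem max : S_MAX := by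
  intro m α₀ b₀ η hm hc α b hα hb hb2 hαb
  have hpi := Real.pi_pos
  have hη := hc.hη
  have hα₀ := hc.hα
  have hb₀ := hc.hb
  have hb₀2 : b₀ < π / 2 := by nlinarith [hc.hbm]
  have hab₀ := hc.hαb
  set x := α - α₀ with hx
  set y := b - b₀ with hy
  have e0 : ∀ t ∈ Icc (0:ℝ) 1, 0 ≤ α₀ + t * x := by
    intro t ht
    rw [hx]
    nlinarith [ht.1, ht.2, mul_nonneg ht.1 hα, mul_nonneg (sub_nonneg.mpr ht.2) hα₀.le]
  have e1 : ∀ t ∈ Ico (0:ℝ) 1, 0 < α₀ + t * x := by
    intro t ht
    rw [hx]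
    nlinarith [ht.1, ht.2, mul_nonneg ht.1 hα, mul_pos (sub_pos.mpr ht.2) hα₀]
  have e2 : ∀ t ∈ Icc (0:ℝ) 1, 0 ≤ b₀ + t * y := by
    intro t ht
    rw [hy]
    nlinarith [ht.1, ht.2, mul_nonneg ht.1 hb, mul_nonneg (sub_nonneg.mpr ht.2) hb₀.le]
  have e3 : ∀ t ∈ Icc (0:ℝ) 1, b₀ + t * y ≤ π / 2 := by
    intro t ht
    rw [hy]
    nlinarith [ht.1, ht.2, mul_nonneg ht.1 (sub_nonneg.mpr hb2),
      mul_nonneg (sub_nonneg.mpr ht.2) (sub_nonneg.mpr hb₀2.le)]
  have e4 : ∀ t ∈ Icc (0:ℝ) 1, (α₀ + t * x) + (b₀ + t * y) ≤ π := by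
    intro t ht
    rw [hx, hy]
    nlinarith [ht.1, ht.2, mul_nonneg ht.1 (sub_nonneg.mpr hαb),
      mul_nonneg (sub_nonneg.mpr ht.2) (sub_nonneg.mpr hab₀.le)]
  have e5 : ∀ t ∈ Icc (0:ℝ) 1, α₀ + t * x < 2 * π := by
    intro t ht
    linarith [e4 t ht, e2 t ht]
  have hanti : AntitoneOn (fun t => dpot m η (α₀ + t * x) (b₀ + t * y) x y) (Ico 0 1) := by
    apply antitoneOn_of_deriv_nonpos (convex_Ico 0 1)
    · intro t ht
      exact (dpot_hasDeriv hη (e1 t ht) (e5 t ⟨ht.1, ht.2.le⟩)).continuousAt.continuousWithinAt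
    · intro t ht
      rw [interior_Ico] at ht
      have ht' : t ∈ Ico (0:ℝ) 1 := ⟨ht.1.le, ht.2⟩
      exact (dpot_hasDeriv hη (e1 t ht')
        (e5 t ⟨ht'.1, ht'.2.le⟩)).differentiableAt.differentiableWithinAt
    · intro t ht
      rw [interior_Ico] at ht
      have ht' : t ∈ Ico (0:ℝ) 1 := ⟨ht.1.le, ht.2⟩
      have ht'' : t ∈ Icc (0:ℝ) 1 := ⟨ht.1.le, ht.2.le⟩
      rw [(dpot_hasDeriv hη (e1 t ht') (e5 t ht'')).deriv]
      have := quad_nonneg x y hη (e1 t ht') (e2 t ht'') (e3 t ht'') (e4 t ht'')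
      linarith
  have hzero : dpot m η (α₀ + 0 * x) (b₀ + 0 * y) x y = 0 := by
    have h1 := hc.c1
    have h2 := hc.c2
    simp only [zero_mul, add_zero]
    unfold dpot
    linear_combination x * h2 + y * h1
  have hanti2 : AntitoneOn (fun t => pot m (α₀ + t * x) (b₀ + t * y) η) (Icc 0 1) := by
    apply antitoneOn_of_deriv_nonpos (convex_Icc 0 1)
    · apply Continuous.continuousOn
      exact (pot_cont m hη).comp (by fun_prop : Continuous fun t : ℝ => (α₀ + t * x, b₀ + t * y))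
    · intro t ht
      rw [interior_Icc] at ht
      have ht' : t ∈ Ico (0:ℝ) 1 := ⟨ht.1.le, ht.2⟩
      exact (pot_hasDeriv hη (e1 t ht')
        (e5 t ⟨ht'.1, ht'.2.le⟩)).differentiableAt.differentiableWithinAt
    · intro t ht
      rw [interior_Icc] at ht
      have ht' : t ∈ Ico (0:ℝ) 1 := ⟨ht.1.le, ht.2⟩
      have ht'' : t ∈ Icc (0:ℝ) 1 := ⟨ht.1.le, ht.2.le⟩
      rw [(pot_hasDeriv hη (e1 t ht') (e5 t ht'')).deriv]
      have h := hanti (left_mem_Ico.mpr one_pos) ht' ht.1.le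
      simp only at h
      rw [hzero] at h
      exact h
  have h := hanti2 (left_mem_Icc.mpr zero_le_one) (right_mem_Icc.mpr zero_le_one) zero_le_one
  simp only [zero_mul, add_zero, one_mul] at h
  rw [hx, hy] at h
  simpa using h

/-- the derivative in `b` -/
noncomputable def Fb (m η α b : ℝ) : ℝ := 4 * m * η + ell η (b + α) - ell η (b - α)

lemma potb_hasDeriv {m η α : ℝ} (hη : 0 < η) (b : ℝ) :
    HasDerivAt (fun b => pot m α b η) (Fb m η α b) b := by
  have b1 : HasDerivAt (fun b : ℝ => b) 1 b := hasDerivAt_id b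
  have l2 : HasDerivAt (fun b => Lf η (b + α)) (ell η (b + α) * 1) b :=
    Lf_comp hη (b1.add_const α)
  have l3 : HasDerivAt (fun b => Lf η (b - α)) (ell η (b - α) * 1) b :=
    Lf_comp hη (b1.sub_const α)
  have l4 : HasDerivAt (fun b => 4 * (m * b - π) * η) (4 * (m * 1) * η) b :=
    (((b1.const_mul m).sub_const π).const_mul 4).mul_const η
  have := (l4.const_add (8 * lob (α / 2))).add (l2.sub l3)
  refine this.congr_deriv ?_
  unfold Fb
  ring

lemma Fb_hasDeriv {m η α : ℝ} (hη : 0 < η) (b : ℝ) :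
    HasDerivAt (Fb m η α) (-(2 * Real.sin α * (Real.cosh η * Real.cos b + Real.cos α) /
      ((Real.cosh η + Real.cos (b + α)) * (Real.cosh η + Real.cos (b - α))))) b := by
  have b1 : HasDerivAt (fun b : ℝ => b) 1 b := hasDerivAt_id b
  have l2 : HasDerivAt (fun b => ell η (b + α)) (-(Real.sin (b + α) /
      (Real.cosh η + Real.cos (b + α))) * 1) b :=
    ell_comp hη (b1.add_const α)
  have l3 : HasDerivAt (fun b => ell η (b - α)) (-(Real.sin (b - α) /
      (Real.cosh η + Real.cos (b - α))) * 1) b :=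
    ell_comp hη (b1.sub_const α)
  have := (l2.const_add (4 * m * η)).sub l3
  refine this.congr_deriv ?_
  rw [← pr_add hη]
  ring

lemma Fb_neg_lt {m η α b : ℝ} (hm : 0 < m) (hη : 0 < η) (hα : 0 ≤ α) (hα' : α ≤ π)
    (hb : -π ≤ b) (hb' : b ≤ 0) : 0 < Fb m η α b := by
  unfold Fb
  have h1 : Real.cos (b - α) ≤ Real.cos (b + α) := by
    rw [Real.cos_sub, Real.cos_add]
    have h2 : Real.sin b ≤ 0 := Real.sin_nonpos_of_nonpos_of_neg_pi_le hb' hb
    have h3 : 0 ≤ Real.sin α := Real.sin_nonneg_of_nonneg_of_le_pi hα hα'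
    nlinarith
  have h4 : ell η (b - α) ≤ ell η (b + α) := by
    unfold ell
    exact Real.log_le_log (arg_pos hη _) (by linarith)
  have : 0 < 4 * m * η := by positivity
  linarith

theorem quad : S_QUAD := by
  intro m α b₀ η b₁ hm hc hb01 hb1 hαb1
  have hpi := Real.pi_pos
  have hη := hc.hη
  have hα := hc.hα
  have hb₀ := hc.hb
  have hm0 : 0 < m := by linarith
  set F := Fb m η α with hF
  have hF0 : F b₀ = 0 := hc.c1
  have hFd : ∀ b, HasDerivAt F _ b := fun b => Fb_hasDeriv hη b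
  have hαpi : α < π := by linarith
  have hsα : 0 < Real.sin α := Real.sin_pos_of_pos_of_lt_pi hα hαpi
  have hneg : ∀ b, 0 ≤ b → b < b₁ → deriv F b < 0 := by
    intro b hb hbb
    rw [(hFd b).deriv]
    have h1 := den_pos hη (b + α)
    have h2 := den_pos hη (b - α)
    have h3 : 0 < Real.cosh η * Real.cos b + Real.cos α := by
      have k1 : 0 < Real.cos b := Real.cos_pos_of_mem_Ioo ⟨by linarith, by linarith⟩
      have k2 : Real.cos (π - b) < Real.cos α :=
        Real.cos_lt_cos_of_nonneg_of_le_pi hα.le (by linarith) (by linarith)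
      rw [Real.cos_pi_sub] at k2
      have k3 := Real.one_le_cosh η
      nlinarith
    have : 0 < 2 * Real.sin α * (Real.cosh η * Real.cos b + Real.cos α) /
      ((Real.cosh η + Real.cos (b + α)) * (Real.cosh η + Real.cos (b - α))) := by positivity
    linarith
  have hFc : Continuous F := continuous_iff_continuousAt.mpr fun b => (hFd b).continuousAt
  have hsa : StrictAntiOn F (Icc 0 b₁) := by
    apply strictAntiOn_of_deriv_neg (convex_Icc 0 b₁) hFc.continuousOn
    intro b hb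
    rw [interior_Icc] at hb
    exact hneg b hb.1.le hb.2
  have hds : ∀ b ∈ Icc (-π) b₁, dslope F b₀ b < 0 := by
    intro b hb
    rcases lt_trichotomy b b₀ with h | h | h
    · rw [dslope_of_ne _ h.ne, slope_def_field, hF0, sub_zero]
      have hpos : 0 < F b := by
        rcases le_total b 0 with h' | h'
        · exact Fb_neg_lt hm0 hη hα.le hαpi.le hb.1 h'
        · have := hsa ⟨h', hb.2⟩ ⟨hb₀.le, hb01.le⟩ h
          linarith
      exact div_neg_of_pos_of_neg hpos (by linarith)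
    · subst h
      rw [dslope_same]
      exact hneg b hb₀.le hb01
    · rw [dslope_of_ne _ h.ne', slope_def_field, hF0, sub_zero]
      have hn : F b < 0 := by
        have := hsa ⟨hb₀.le, hb01.le⟩ ⟨by linarith, hb.2⟩ h
        linarith
      exact div_neg_of_neg_of_pos hn (by linarith)
  have hdc : ContinuousOn (dslope F b₀) (Icc (-π) b₁) := by
    rw [continuousOn_dslope (Icc_mem_nhds (by linarith) hb01)]
    exact ⟨hFc.continuousOn, (hFd b₀).differentiableAt⟩
  obtain ⟨z, hz, hzmax⟩ := isCompact_Icc.exists_isMaxOn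
    (⟨b₀, by constructor <;> linarith⟩ : (Icc (-π) b₁).Nonempty) hdc
  refine ⟨-(dslope F b₀ z) / 2, by linarith [hds z hz], ?_⟩
  set c := -(dslope F b₀ z) / 2 with hcdef
  have hle : ∀ b ∈ Icc (-π) b₁, dslope F b₀ b + 2 * c ≤ 0 := by
    intro b hb
    have := hzmax hb
    simp only [Set.mem_ofPred_eq] at this
    rw [hcdef]
    linarith
  have hFeq : ∀ b, F b = dslope F b₀ b * (b - b₀) := by
    intro b
    have := sub_smul_dslope F b₀ b
    rw [smul_eq_mul, hF0, sub_zero] at this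
    linarith
  set H : ℝ → ℝ := fun b => pot m α b η + c * (b - b₀) ^ 2 with hH
  have hHd : ∀ b, HasDerivAt H ((dslope F b₀ b + 2 * c) * (b - b₀)) b := by
    intro b
    have h1 : HasDerivAt (fun b => pot m α b η) (F b) b := potb_hasDeriv hη b
    have h2 : HasDerivAt (fun b => c * (b - b₀) ^ 2) (c * (2 * (b - b₀) ^ 1 * 1)) b := by
      simpa using (((hasDerivAt_id b).sub_const b₀).pow 2).const_mul c
    refine (h1.add h2).congr_deriv ?_
    rw [hFeq b]
    ring
  have hHc : Continuous H := continuous_iff_continuousAt.mpr fun b => (hHd b).continuousAt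
  have hmono : MonotoneOn H (Icc (-π) b₀) := by
    apply monotoneOn_of_deriv_nonneg (convex_Icc _ _) hHc.continuousOn
    · intro b _
      exact (hHd b).differentiableAt.differentiableWithinAt
    · intro b hb
      rw [interior_Icc] at hb
      rw [(hHd b).deriv]
      have := hle b ⟨hb.1.le, by linarith [hb.2]⟩
      nlinarith [hb.2]
  have hanti : AntitoneOn H (Icc b₀ b₁) := by
    apply antitoneOn_of_deriv_nonpos (convex_Icc _ _) hHc.continuousOn
    · intro b _
      exact (hHd b).differentiableAt.differentiableWithinAt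
    · intro b hb
      rw [interior_Icc] at hb
      rw [(hHd b).deriv]
      have := hle b ⟨by linarith [hb.1], hb.2.le⟩
      nlinarith [hb.1]
  intro b hb hbb
  have hfin : H b ≤ H b₀ := by
    rcases le_total b b₀ with h | h
    · exact hmono ⟨hb, h⟩ ⟨by linarith, le_refl _⟩ h
    · exact hanti ⟨le_refl _, hb01.le⟩ ⟨h, hbb⟩ h
  rw [hH] at hfin
  simp only [sub_self] at hfin
  linarith

end Pool.Agent.W402.VC
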